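import Pool.Agent.H499.CF.Adm

/-!
# Eisenstein congruences and Fitting ideals of Selmer groups over general coefficient rings

Kato's Euler system bounds the Selmer groups of Q1 from above. Lower bounds, the other divisibility of the main
conjecture, come from Eisenstein congruences (Mazur-Wiles, Wiles, Urban, Skinner-Urban): one has a Hecke algebra `T`,
finite over an Iwasawa algebra `Λ`, an Eisenstein ideal `I`, with `T/I` a quotient of `Λ` by a multiple of the product
of two `p`-adic `L`-functions, a family of irreducible Galois representations over `T`, and modulo `I` their trace is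
the sum of the traces of `s ≥ 2` pieces (for Skinner-Urban `s = 3`: the representation of `E` and two characters). A lattice
construction gives cohomology classes. For `s = 2` it gives that the Fitting ideal of the dual Selmer group is
contained in `I`. For `s ≥ 3` the lattices of Urban and Skinner-Urban isolate one piece under additional hypotheses
(for example that the other extensions do not occur, a unit `L`-function of the character). We prove the general
statement, over any complete Noetherian local coefficient ring and for all decompositions of the set of pieces.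

Let `T` be a complete Noetherian local ring contained in a finite product of fields `L_κ` (the total ring of
fractions of the Hecke algebra), `G` a group (`G_ℚ`), `r_κ : G → GL_N(L_κ)` absolutely irreducible representations with
traces in `T`, `I ≠ T` an ideal and `ρ_1, …, ρ_s` representations of `G` over `T/I` of dimensions `d_i`, `N = ∑ d_i`,
whose sum has the trace of `(r_κ)` modulo `I`, with absolutely irreducible and pairwise non-isomorphic reductions modulo the
maximal ideal. Let `P` be a class of `T[G]`-modules closed under quotients and finite direct sums, which contains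
the `G`-stable lattices of `⊕ r_κ` (it describes the local conditions, for example: ordinary at `p` and unramified
outside `Σ`). Let `Y_ij` be a finitely generated `T/I`-module with a cocycle `u_ij` with values in `Hom(ρ_j, ρ_i) ⊗ Y_ij` from
which all extensions of `ρ_j` by `ρ_i ⊗ M` in `P` are obtained by homomorphisms `Y_ij → M` (`M` finitely generated);
the Pontryagin dual of the Selmer group `H¹_P(G, Hom(ρ_j, ρ_i) ⊗ (T/I)^∨)`, with its universal class, is such a module.

THEOREM. For EVERY decomposition `A ∪ A'` of the set of pieces in two nonempty subsets the product of the Fitting ideals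
`Fitt_{T/I}(Y_ij)`, `i ∈ A`, `j ∈ A'`, is zero. If `T/I` is a quotient of a ring `Λ`, and `𝔭` a prime ideal of `Λ` such that
`Λ_𝔭` is a discrete valuation ring, then the length of `T/I` at `𝔭` is at most the sum of the lengths of these `Y_ij` at `𝔭`.

So if `Λ` is normal the characteristic ideal of the congruence module `T/I` divides the product of the characteristic
ideals of the dual Selmer groups over every cut, without any hypothesis on the other `L`-functions, on the regularity
of the coefficient ring (`T/I` can be a quotient of a group ring, as for equivariant main conjectures), on `μ`-invariants, or on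
the characteristic of the fields `L_κ` and of the residue field.

For Q1 (`E` ordinary at `p`, after Skinner-Urban): `Λ` the three variable algebra, the pieces are two characters `χ`, `χ'` and the
representation `ρ_f`. The cut `{χ'}`, `{χ, ρ_f}` gives: the Eisenstein ideal divides
`char(H¹_P(Hom(ρ_f, χ'))^∨) char(H¹_P(Hom(χ, χ'))^∨)`, the shape (`L`-function of `E`) times (`L`-function of the character) of the
constant term.

Idea of the proof. `A_T`, the `T`-span of the `r(g)`, is finite over `T`, and the map to `∏ M_{d_i}(T/I)` lifts matrix units: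
an idempotent in the kernel is zero because the traces of the lifts of the diagonal units are units of `T`, so that these
lifts use up the rank in every `L_κ`. So `A_T` is a generalised matrix algebra with entries `a_ij ⊂ ∏ L_κ`. The module
`X_ij = a_ij / (∑ a_il a_lj + I a_ij)` carries a cocycle such that `Hom(X_ij, M)` injects in
`H¹_P(G, Hom(ρ_j, ρ_i) ⊗ M)`, so it is a quotient of `Y_ij`. Matrices of relations of the `X_ij`, `i ∈ A`, `j ∈ A'`, lift to a
matrix with entries in the algebra of the `a_ii' a_j'j` which kills the vector of the generators; its determinant is zero,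
and modulo `I` it is the product of the determinants.
-/

set_option autoImplicit false

namespace Pool.Agent.Results.MP_1186d4_nt.FittingCuts

open Matrix IsLocalRing
open Pool.Agent.H499.CF (Hyp fam rix joint_span rix_span rix_trace main loc_mult t_GMA t_FITT t_EXT t_MEM t_LOC)

/-! ### Representations -/

section reps

variable {G A : Type} [Group G] [CommRing A] {n : ℕ}

/-- the matrix of `g` -/
def mat (ρ : G →* GL (Fin n) A) (g : G) : Matrix (Fin n) (Fin n) A := ρ g

/-- `ρ` as a homomorphism to the monoid of matrices -/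
def hom (ρ : G →* GL (Fin n) A) : G →* Matrix (Fin n) (Fin n) A := (Units.coeHom _).comp ρ

/-- the trace of `g` -/
def tr (ρ : G →* GL (Fin n) A) (g : G) : A := (mat ρ g).trace

/-- a representation over a field is absolutely irreducible: the matrices span the matrix algebra (Burnside) -/
def AbsolutelyIrreducible {k : Type} [Field k] (ρ : G →* GL (Fin n) k) : Prop :=
  0 < n ∧ Submodule.span k (Set.range (mat ρ)) = ⊤

/-- the reduction of `ρ` is absolutely irreducible, for the homomorphisms from `A` onto fields (`A` will be local) -/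
def ResiduallyIrreducible (ρ : G →* GL (Fin n) A) : Prop :=
  0 < n ∧ ∀ (k : Type) [Field k] (π : A →+* k), Function.Surjective π →
    Submodule.span k (Set.range fun g => (mat ρ g).map π) = ⊤

/-- the reductions of `ρ` and `τ` have different traces -/
def ResiduallyDifferent {m : ℕ} (ρ : G →* GL (Fin n) A) (τ : G →* GL (Fin m) A) : Prop :=
  ∀ (k : Type) [Field k] (π : A →+* k), Function.Surjective π → ∃ g, π (tr ρ g) ≠ π (tr τ g)

end reps

/-! ### Modules -/

section modules

variable {R : Type} [CommRing R]

/-- the Fitting ideal of a module `X`: generated by the determinants of the square matrices of relations between the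
members of finite systems of generators -/
def Fitt (R X : Type) [CommRing R] [AddCommGroup X] [Module R X] : Ideal R :=
  Ideal.span {z | ∃ (m : ℕ) (y : Fin m → X) (C : Matrix (Fin m) (Fin m) R),
    Submodule.span R (Set.range y) = ⊤ ∧ (∀ p, ∑ q, C p q • y q = 0) ∧ z = C.det}

/-- the length of the localisation of the `Λ`-module `X` at the prime ideal `𝔭`; for `𝔭` of height one in a normal
domain this is the exponent of `𝔭` in the characteristic ideal -/
noncomputable def lengthAt {Λ : Type} [CommRing Λ] (𝔭 : Ideal Λ) [𝔭.IsPrime] (X : Type) [AddCommGroup X]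
    [Module Λ X] : ℕ∞ := Module.length (Localization.AtPrime 𝔭) (LocalizedModule 𝔭.primeCompl X)

/-- the same for a module over a `Λ`-algebra `R` -/
noncomputable def multiplicity {Λ : Type} [CommRing Λ] [Algebra Λ R] (𝔭 : Ideal Λ) [𝔭.IsPrime] (X : Type)
    [AddCommGroup X] [Module R X] : ℕ∞ :=
  letI := Module.compHom X (algebraMap Λ R)
  lengthAt 𝔭 X

variable {G : Type} [Group G] {a b : ℕ}

/-- `c` is a cocycle of `G` with values in `Hom(τ, ρ) ⊗ M`, written such that the matrices `(ρ c; 0 τ)` are a
representation: `c(gh) = ρ(g) c(h) + c(g) τ(h)` -/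
def IsCocycle {M : Type} [AddCommGroup M] [Module R M] (τ : G →* GL (Fin b) R) (ρ : G →* GL (Fin a) R)
    (c : G → Fin a → Fin b → M) : Prop :=
  ∀ g h p q, c (g * h) p q = ∑ s, mat ρ g p s • c h s q + ∑ s, mat τ h s q • c g p s

/-- `c` is a coboundary: `c(g) = ρ(g) x - x τ(g)` -/
def IsCoboundary {M : Type} [AddCommGroup M] [Module R M] (τ : G →* GL (Fin b) R) (ρ : G →* GL (Fin a) R)
    (c : G → Fin a → Fin b → M) : Prop :=
  ∃ x : Fin a → Fin b → M, ∀ g p q, c g p q = ∑ s, mat ρ g p s • x s q - ∑ s, mat τ g s q • x p s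

/-- the extension `0 → ρ ⊗ M → U → τ → 0` given by the cocycle `c`: `G` acts on `M^a × R^b` by the matrices
`(ρ c; 0 τ)` -/
def extension {M : Type} [AddCommGroup M] [Module R M] (τ : G →* GL (Fin b) R) (ρ : G →* GL (Fin a) R)
    (c : G → Fin a → Fin b → M) (g : G) (v : (Fin a → M) × (Fin b → R)) : (Fin a → M) × (Fin b → R) :=
  (fun p => ∑ s, mat ρ g p s • v.1 s + ∑ s, v.2 s • c g p s, mat τ g *ᵥ v.2)

end modules

/-- a class of `T`-modules `V` with an action `G → V → V`, closed under quotients and finite direct sums -/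
structure Class (T G : Type) [CommRing T] where
  mem : ∀ (V : Type) [AddCommGroup V] [Module T V], (G → V → V) → Prop
  quot : ∀ (V W : Type) [AddCommGroup V] [Module T V] [AddCommGroup W] [Module T W] (π : G → V → V)
    (π' : G → W → W) (f : V →ₗ[T] W), (∀ g v, f (π g v) = π' g (f v)) → Function.Surjective f →
    mem V π → mem W π'
  sum : ∀ (ι : Type) [Fintype ι] (V : ι → Type) [∀ i, AddCommGroup (V i)] [∀ i, Module T (V i)]
    (π : ∀ i, G → V i → V i), (∀ i, mem (V i) (π i)) → mem (∀ i, V i) fun g v i => π i g (v i)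

section lattices

variable {T G K : Type} {L : K → Type} [CommRing T] [Group G] [∀ κ, Field (L κ)] [∀ κ, Algebra T (L κ)] {n : ℕ}

/-- the action of `G` on `∏ (L κ) ^ n` by the representations `r κ` -/
def act (r : ∀ κ, G →* GL (Fin n) (L κ)) (g : G) (v : Fin n → ∀ κ, L κ) : Fin n → ∀ κ, L κ :=
  fun x κ => ∑ y, mat (r κ) g x y * v y κ

/-- the class `P` contains all finitely generated `G`-stable `T`-submodules of `∏ (L κ) ^ n` -/
def ContainsLattices (P : Class T G) (r : ∀ κ, G →* GL (Fin n) (L κ)) : Prop :=
  ∀ (N : Submodule T (Fin n → ∀ κ, L κ)) (hs : ∀ g, ∀ v ∈ N, act r g v ∈ N), N.FG →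
    P.mem N (fun g v => ⟨act r g v, hs g v v.2⟩)

end lattices

/-- `(Y, u)` is versal for the extensions of `τ` by `ρ ⊗ M` in the class `P`: every cocycle with values in
`Hom(τ, ρ) ⊗ M`, `M` a finitely generated `T / I`-module, whose extension is in `P`, is `h ∘ u` for some homomorphism
`h : Y → M`, up to a coboundary. So `Y` generates the dual of the Selmer group `H¹_P(G, Hom(τ, ρ) ⊗ (T/I)^∨)`. -/
def Versal {T G : Type} [CommRing T] [Group G] {I : Ideal T} {a b : ℕ} (P : Class T G) (τ : G →* GL (Fin b) (T ⧸ I))
    (ρ : G →* GL (Fin a) (T ⧸ I)) (Y : Type) [AddCommGroup Y] [Module T Y] (u : G → Fin a → Fin b → Y) : Prop :=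
  ∀ (M : Type) [AddCommGroup M] [Module T M] [Module (T ⧸ I) M] [IsScalarTower T (T ⧸ I) M] [Module.Finite T M]
    (c : G → Fin a → Fin b → M), IsCocycle τ ρ c → P.mem _ (extension τ ρ c) →
      ∃ h : Y →ₗ[T] M, IsCoboundary τ ρ fun g p q => c g p q - h (u g p q)

/-! ### Auxiliary statements -/

section aux

theorem fitt_surj {R X Y : Type} [CommRing R] [AddCommGroup X] [Module R X] [AddCommGroup Y] [Module R Y]
    (f : Y →ₗ[R] X) (hf : Function.Surjective f) : Fitt R Y ≤ Fitt R X := by
  refine Ideal.span_le.2 ?_
  rintro z ⟨m, y, C, h1, h2, rfl⟩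
  refine Ideal.subset_span ⟨m, fun q => f (y q), C, ?_, fun p => ?_, rfl⟩
  · have h3 : Set.range (fun q => f (y q)) = f '' Set.range y := (Set.range_comp f y)
    rw [h3, ← Submodule.map_span, h1, Submodule.map_top, LinearMap.range_eq_top]
    exact hf
  · have h3 := congrArg f (h2 p)
    rw [map_sum, map_zero] at h3
    simpa only [map_smul] using h3

/-- a homomorphism of `T`-modules between `T / I`-modules is one of `T / I`-modules -/
def liftQ {T X Y : Type} [CommRing T] (I : Ideal T) [AddCommGroup X] [Module T X] [Module (T ⧸ I) X]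
    [IsScalarTower T (T ⧸ I) X] [AddCommGroup Y] [Module T Y] [Module (T ⧸ I) Y] [IsScalarTower T (T ⧸ I) Y]
    (f : Y →ₗ[T] X) : Y →ₗ[T ⧸ I] X where
  toFun := f
  map_add' := f.map_add
  map_smul' a y := by
    obtain ⟨b, rfl⟩ := Ideal.Quotient.mk_surjective a
    rw [← Ideal.Quotient.algebraMap_eq, algebraMap_smul, RingHom.id_apply, algebraMap_smul, map_smul]

end aux

/-- **Main theorem.** Let `T` be a complete Noetherian local ring contained in a finite product of fields `L κ`,
`r κ` absolutely irreducible representations of `G` of dimension `∑ d_i` with traces in `T`, and `ρ_1, …, ρ_s` representations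
over `T/I` with the same trace modulo `I`, residually absolutely irreducible and pairwise different. For every
decomposition `A ∪ A'` of `{1, …, s}` in nonempty subsets and all versal modules `Y i j` (dual Selmer groups) for the
extensions of `ρ_j` by `ρ_i`, `i ∈ A`, `j ∈ A'`, in the class `P`: the product of their Fitting ideals is zero, and the
characteristic ideal of the congruence module divides the product of their characteristic ideals. -/
theorem result {T G K : Type} {L : K → Type} [CommRing T] [IsLocalRing T] [IsNoetherianRing T]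
    [IsAdicComplete (maximalIdeal T) T] [Group G] [Fintype K] [Nonempty K] [∀ κ, Field (L κ)] [∀ κ, Algebra T (L κ)]
    (hT : ∀ x : T, (∀ κ, algebraMap T (L κ) x = 0) → x = 0) {s : ℕ} {d : Fin s → ℕ}
    (r : ∀ κ, G →* GL (Fin (∑ i, d i)) (L κ)) (hr : ∀ κ, AbsolutelyIrreducible (r κ))
    (t : G → T) (ht : ∀ g κ, algebraMap T (L κ) (t g) = tr (r κ) g)
    (I : Ideal T) (hI : I ≠ ⊤) (ρ : ∀ i, G →* GL (Fin (d i)) (T ⧸ I)) (hρ : ∀ i, ResiduallyIrreducible (ρ i))
    (hne : ∀ i j, i ≠ j → ResiduallyDifferent (ρ i) (ρ j)) (htr : ∀ g, Ideal.Quotient.mk I (t g) = ∑ i, tr (ρ i) g)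
    (P : Class T G) (hP : ContainsLattices P r) (A : Finset (Fin s)) (hA : A.Nonempty) (hA' : Aᶜ.Nonempty)
    (Y : Fin s → Fin s → Type) [∀ i j, AddCommGroup (Y i j)] [∀ i j, Module T (Y i j)]
    [∀ i j, Module (T ⧸ I) (Y i j)] [∀ i j, IsScalarTower T (T ⧸ I) (Y i j)] [∀ i j, Module.Finite (T ⧸ I) (Y i j)]
    (u : ∀ i j, G → Fin (d i) → Fin (d j) → Y i j)
    (hu : ∀ i ∈ A, ∀ j ∈ Aᶜ, Versal P (ρ j) (ρ i) (Y i j) (u i j)) :
    ∏ i ∈ A, ∏ j ∈ Aᶜ, Fitt (T ⧸ I) (Y i j) = ⊥ ∧
      ∀ (Λ : Type) [CommRing Λ] [Algebra Λ (T ⧸ I)], Function.Surjective (algebraMap Λ (T ⧸ I)) →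
        ∀ (𝔭 : Ideal Λ) [𝔭.IsPrime] [IsDomain (Localization.AtPrime 𝔭)]
          [IsDiscreteValuationRing (Localization.AtPrime 𝔭)],
          multiplicity (R := T ⧸ I) 𝔭 (T ⧸ I) ≤ ∑ i ∈ A, ∑ j ∈ Aᶜ, multiplicity (R := T ⧸ I) 𝔭 (Y i j) := by
  classical
  have e : Fin (∑ i, d i) ≃ Σ i, Fin (d i) := finSigmaFinEquiv.symm
  have H : Hyp I (fun i => hom (ρ i)) (fun κ => rix e (hom (r κ))) t :=
    { inj := hT
      ne_top := hI
      pos := fun i => (hρ i).1
      span := joint_span hI (fun i => hom (ρ i)) (fun i => (hρ i).1) (fun k _ π hπ i => (hρ i).2 k π hπ)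
        (fun k _ π hπ i j hij => hne i j hij k π hπ)
      irr := fun κ => rix_span e _ (hr κ).2
      tr := fun g κ => (ht g κ).trans (rix_trace e (hom (r κ)) g).symm
      tr_eq := htr }
  have hP' : ∀ (N : Submodule T ((Σ i, Fin (d i)) → ∀ κ, L κ))
      (hs : ∀ g, ∀ v ∈ N, fam (fun κ => rix e (hom (r κ))) g *ᵥ v ∈ N), N.FG →
      P.mem N (fun g v => ⟨fam (fun κ => rix e (hom (r κ))) g *ᵥ (v : (Σ i, Fin (d i)) → ∀ κ, L κ), hs g v v.2⟩) := by
    intro N hs hN
    have hact : ∀ (g : G) (v : (Σ i, Fin (d i)) → ∀ κ, L κ),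
        (fun x => (fam (fun κ => rix e (hom (r κ))) g *ᵥ v) (e x)) = act r g (fun x => v (e x)) := by
      intro g v
      funext x κ
      rw [Matrix.mulVec, dotProduct, Finset.sum_apply]
      refine (Fintype.sum_equiv e _ _ fun y => ?_).symm
      show mat (r κ) g x y * v (e y) κ = mat (r κ) g (e.symm (e x)) (e.symm (e y)) * v (e y) κ
      rw [Equiv.symm_apply_apply, Equiv.symm_apply_apply]
    set f : ((Σ i, Fin (d i)) → ∀ κ, L κ) ≃ₗ[T] (Fin (∑ i, d i) → ∀ κ, L κ) :=
      LinearEquiv.funCongrLeft T (∀ κ, L κ) e with hf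
    set N' : Submodule T (Fin (∑ i, d i) → ∀ κ, L κ) := N.map (f : _ →ₗ[T] _) with hN'
    have hs' : ∀ g, ∀ v ∈ N', act r g v ∈ N' := by
      rintro g _ ⟨w, hw, rfl⟩
      exact ⟨_, hs g w hw, hact g w⟩
    have h1 := hP N' hs' (hN.map _)
    refine P.quot N' N _ _ ((f.submoduleMap N).symm : N' →ₗ[T] N) ?_ (f.submoduleMap N).symm.surjective h1
    intro g v
    obtain ⟨w, rfl⟩ := (f.submoduleMap N).surjective v
    refine (f.submoduleMap N).injective ?_
    show f.submoduleMap N ((f.submoduleMap N).symm _) = _
    rw [LinearEquiv.apply_symm_apply]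
    refine Subtype.ext ?_
    show act r g (f w) = f (fam (fun κ => rix e (hom (r κ))) g *ᵥ
      (((f.submoduleMap N).symm (f.submoduleMap N w) : N) : (Σ i, Fin (d i)) → ∀ κ, L κ))
    rw [LinearEquiv.symm_apply_apply]
    exact (hact g w).symm
  obtain ⟨X, i1, i2, i3, i4, c, h1, h2, h3, h4⟩ := main t_GMA t_FITT t_EXT t_MEM H
    (⟨P.mem, P.quot, P.sum⟩ : Pool.Agent.H499.CF.Class T G) hP'
  have hsurj : ∀ i ∈ A, ∀ j ∈ Aᶜ, ∃ f : Y i j →ₗ[T] X i j, Function.Surjective f := by
    intro i hi j hj
    have hij : i ≠ j := by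
      rintro rfl
      exact (Finset.mem_compl.1 hj) hi
    have hfin : Module.Finite T (X i j) := by
      have := h1 i j
      exact Module.Finite.trans (T ⧸ I) (X i j)
    have h5 := h2 i j hij (X i j) LinearMap.id
    have h6 := h3 i j hij (X i j) LinearMap.id
    obtain ⟨f, x, hx⟩ := hu i hi j hj (X i j) (c i j)
      (fun g g' p q => congrFun (congrFun (h5.1 g g') p) q) h6
    refine ⟨f, ?_⟩
    set N : Submodule (T ⧸ I) (X i j) := LinearMap.range (liftQ I f) with hN
    have h7 := (h2 i j hij (X i j ⧸ N) ((N.mkQ).restrictScalars T)).2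
      ⟨fun p q => N.mkQ (x p q), fun g => by
        funext p q
        have h8 := congrArg N.mkQ (hx g p q)
        have h9 : N.mkQ (f (u i j g p q)) = 0 := (Submodule.Quotient.mk_eq_zero N).2 ⟨u i j g p q, rfl⟩
        rw [map_sub, h9, sub_zero, map_sub, map_sum, map_sum] at h8
        simp only [map_smul] at h8
        exact h8⟩
    intro y
    have h8 : N.mkQ y = 0 := LinearMap.congr_fun h7 y
    obtain ⟨z, hz⟩ := (Submodule.Quotient.mk_eq_zero N).1 h8
    exact ⟨z, hz⟩
  have hF : ∏ p ∈ A ×ˢ Aᶜ, Fitt (T ⧸ I) (Y p.1 p.2) = ⊥ := by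
    rw [eq_bot_iff]
    refine le_trans ?_ (le_of_eq (h4 A hA hA'))
    refine Finset.prod_le_prod' fun p hp => ?_
    obtain ⟨hp1, hp2⟩ := Finset.mem_product.1 hp
    obtain ⟨f, hf⟩ := hsurj p.1 hp1 p.2 hp2
    exact fitt_surj (liftQ I f) hf
  refine ⟨?_, ?_⟩
  · rw [Finset.prod_product] at hF
    exact hF
  · intro Λ _ _ hΛ 𝔭 _ _ _
    have h5 := loc_mult t_LOC (R := T ⧸ I) 𝔭 (A ×ˢ Aᶜ) (fun p => Y p.1 p.2) hΛ hF
    rw [Finset.sum_product] at h5
    exact h5

end Pool.Agent.Results.MP_1186d4_nt.FittingCuts
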